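import Pool.Agent.H90.STE.Stmts2

/-!
# Row SA of the board ste2: selection of directions with covering numbers
-/

set_option autoImplicit false

namespace Pool.STE

open Finset Real MeasureTheory
open scoped RealInnerProductSpace ENNReal
open Pool.STK
open Pool.Agent.H53.Kak (E tube)
open Pool.Agent.H55.HDim (edir edir_sep norm_edir select)

namespace SA55

/-- The radius of the boxes of cubes. -/
def mm (d : ℕ) : ℕ := 4 * (d + 1) ^ 2 + 1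

/-- The box of cubes around a cube. -/
noncomputable def bx {d : ℕ} (y : Fin d → ℤ) : Finset (Fin d → ℤ) :=
  Fintype.piFinset fun i => Finset.Icc (y i - (mm d : ℤ)) (y i + (mm d : ℤ))

/-- The number of cubes in a box. -/
def KK (d : ℕ) : ℕ := (2 * mm d + 1) ^ d

lemma card_bx {d : ℕ} (y : Fin d → ℤ) : (bx y).card = KK d := by
  rw [bx, Fintype.card_piFinset, KK]
  have h : ∀ i : Fin d, (Finset.Icc (y i - (mm d : ℤ)) (y i + (mm d : ℤ))).card = 2 * mm d + 1 := by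
    intro i
    rw [Int.card_Icc]
    omega
  simp_rw [h]
  rw [Finset.prod_const, Finset.card_univ, Fintype.card_fin]

/-- The index of the cube of `w`. -/
noncomputable def ci {d : ℕ} (ρ : ℝ) (w : Fin d → ℝ) : Fin d → ℤ := fun i => ⌊w i / ρ⌋

lemma ci_near {d : ℕ} {ρ : ℝ} (hρ : 0 < ρ) {w w' : Fin d → ℝ} (hw : ∀ i, 0 ≤ w i ∧ w i ≤ 1)
    (hw' : ∀ i, 0 ≤ w' i ∧ w' i ≤ 1) (h : ‖edir w - edir w'‖ ≤ 2 * ρ) : ci ρ w' ∈ bx (ci ρ w) := by
  rw [bx, Fintype.mem_piFinset]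
  intro i
  rw [Finset.mem_Icc]
  have h1 := edir_sep w w' hw hw' i
  have h2 : |w i - w' i| ≤ (4 * ((d : ℝ) + 1) ^ 2) * ρ := by
    refine h1.trans ?_
    calc 2 * ((d : ℝ) + 1) ^ 2 * ‖edir w - edir w'‖ ≤ 2 * ((d : ℝ) + 1) ^ 2 * (2 * ρ) := by gcongr
      _ = (4 * ((d : ℝ) + 1) ^ 2) * ρ := by ring
  have h3 : |w i / ρ - w' i / ρ| ≤ 4 * ((d : ℝ) + 1) ^ 2 := by
    rw [← sub_div, abs_div, abs_of_pos hρ, div_le_iff₀ hρ]
    exact h2
  have ha1 := Int.floor_le (w i / ρ)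
  have ha2 := Int.lt_floor_add_one (w i / ρ)
  have hb1 := Int.floor_le (w' i / ρ)
  have hb2 := Int.lt_floor_add_one (w' i / ρ)
  rw [abs_le] at h3
  simp only [ci]
  have e1 : ((mm d : ℤ) : ℝ) = 4 * ((d : ℝ) + 1) ^ 2 + 1 := by
    simp only [mm]; push_cast; ring
  constructor
  · have : ((⌊w i / ρ⌋ - (mm d : ℤ) : ℤ) : ℝ) ≤ ((⌊w' i / ρ⌋ : ℤ) : ℝ) := by
      rw [Int.cast_sub, e1]; linarith
    exact_mod_cast this
  · have : ((⌊w' i / ρ⌋ : ℤ) : ℝ) ≤ ((⌊w i / ρ⌋ + (mm d : ℤ) : ℤ) : ℝ) := by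
      rw [Int.cast_add, e1]; linarith
    exact_mod_cast this

lemma proj_le {d : ℕ} (z e : E d) (he : ‖e‖ = 1) (s : ℝ) : ‖z - ⟪z, e⟫ • e‖ ≤ ‖z - s • e‖ := by
  have hee : ⟪e, e⟫ = (1 : ℝ) := by rw [real_inner_self_eq_norm_sq, he, one_pow]
  have h1 : z - s • e = (z - ⟪z, e⟫ • e) + (⟪z, e⟫ - s) • e := by rw [sub_smul]; abel
  have h2 : ⟪z - ⟪z, e⟫ • e, (⟪z, e⟫ - s) • e⟫ = (0 : ℝ) := by
    rw [inner_smul_right, inner_sub_left, inner_smul_left, hee]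
    simp
  have h3 := norm_add_sq_real (z - ⟪z, e⟫ • e) ((⟪z, e⟫ - s) • e)
  rw [← h1, h2] at h3
  refine le_of_sq_le_sq ?_ (norm_nonneg _)
  rw [h3]
  nlinarith [sq_nonneg ‖(⟪z, e⟫ - s) • e‖]

lemma tube_cyl {d : ℕ} {δ ρ : ℝ} {x e x' e' : E d} (he' : ‖e'‖ = 1)
    (hx : ‖x - x'‖ ≤ 2 * ρ) (hee : ‖e - e'‖ ≤ 2 * ρ) (hδ : δ ≤ ρ) :
    tube δ (x + (1 / 2 : ℝ) • e) e ⊆ cyl (10 * ρ) (x' + (1 / 2 : ℝ) • e') e' := by
  intro y hy
  obtain ⟨h1, h2⟩ := hy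
  obtain ⟨s, hs⟩ : ∃ s : ℝ, s = ⟪y - (x + (1 / 2 : ℝ) • e), e⟫ := ⟨_, rfl⟩
  rw [← hs] at h1 h2
  have hρ : 0 ≤ ρ := by linarith [norm_nonneg (x - x')]
  have h3 := proj_le (y - (x' + (1 / 2 : ℝ) • e')) e' he' s
  have h4 : y - (x' + (1 / 2 : ℝ) • e') - s • e' =
      (y - (x + (1 / 2 : ℝ) • e) - s • e) + ((x - x') + (1 / 2 + s) • (e - e')) := by
    module
  have h5 : ‖(1 / 2 + s) • (e - e')‖ ≤ 1 * (2 * ρ) := by
    rw [norm_smul, Real.norm_eq_abs]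
    have h6 : |1 / 2 + s| ≤ 1 := by
      rw [abs_le] at h1 ⊢
      constructor <;> linarith
    exact mul_le_mul h6 hee (norm_nonneg _) zero_le_one
  show ‖(y - (x' + (1 / 2 : ℝ) • e')) - ⟪y - (x' + (1 / 2 : ℝ) • e'), e'⟫ • e'‖ ≤ 10 * ρ
  refine h3.trans ?_
  rw [h4]
  refine (norm_add_le _ _).trans ?_
  have h7 := norm_add_le (x - x') ((1 / 2 + s) • (e - e'))
  linarith

/-- The cube number `z`. -/
def cu {d : ℕ} (ρ : ℝ) (z : Fin d → ℤ) : Set (Fin d → ℝ) :=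
  Set.pi Set.univ fun i => Set.Ico ((z i : ℝ) * ρ) (((z i : ℝ) + 1) * ρ)

lemma mem_cu {d : ℕ} {ρ : ℝ} (hρ : 0 < ρ) (w : Fin d → ℝ) : w ∈ cu ρ (ci ρ w) := by
  intro i _
  have h1 := Int.floor_le (w i / ρ)
  have h2 := Int.lt_floor_add_one (w i / ρ)
  exact ⟨(le_div_iff₀ hρ).mp h1, (div_lt_iff₀ hρ).mp h2⟩

lemma vol_cu {d : ℕ} {ρ : ℝ} (hρ : 0 < ρ) (z : Fin d → ℤ) :
    volume (cu ρ z) = ENNReal.ofReal (ρ ^ d) := by
  rw [cu, volume_pi_pi]
  have h2 : ∀ i : Fin d, volume (Set.Ico ((z i : ℝ) * ρ) (((z i : ℝ) + 1) * ρ)) =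
      ENNReal.ofReal ρ := by
    intro i
    rw [Real.volume_Ico]; congr 1; ring
  simp_rw [h2]
  rw [Finset.prod_const, Finset.card_univ, Fintype.card_fin, ENNReal.ofReal_pow hρ.le]

/-- The good directions at one scale. -/
lemma scale {d : ℕ} {ρ η C₀ : ℝ} (hρ0 : 0 < ρ) (hρ1 : ρ < 1) (Λ : Set (E d × E d))
    (hΛ : Box Λ (d + η) C₀) (Ω : Set (Fin d → ℝ)) (x : (Fin d → ℝ) → E d)
    (hΩ : ∀ w ∈ Ω, ∀ i, 0 ≤ w i ∧ w i ≤ 1) (hx : ∀ w ∈ Ω, (x w, edir w) ∈ Λ) :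
    ∃ B : Set (Fin d → ℝ), volume B ≤ ENNReal.ofReal (KK d * C₀ * ρ ^ η) ∧
      ∀ (ι : Type) (w : ι → Fin d → ℝ), (∀ i, w i ∈ Ω ∧ w i ∉ B) → ∀ δ, δ ≤ ρ → ∀ A : ℕ,
        KK d * ρ ^ (-(2 * η)) ≤ A →
        CovAt 10 δ ρ A (fun i => x (w i) + (1 / 2 : ℝ) • edir (w i)) (fun i => edir (w i)) := by
  classical
  obtain ⟨F, hF, hcov⟩ := hΛ ρ hρ0 hρ1
  set N : (Fin d → ℤ) → Finset (E d × E d) := fun z => F.filter
    (fun f => ∃ w ∈ Ω, ci ρ w = z ∧ ‖x w - f.1‖ ≤ ρ ∧ ‖edir w - f.2‖ ≤ ρ) with hN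
  set Z0 : Finset (Fin d → ℤ) := Fintype.piFinset fun _ => Finset.Icc 0 ⌊1 / ρ⌋ with hZ0
  set Bad := Z0.filter (fun z => ρ ^ (-(2 * η)) < ((N z).card : ℝ)) with hBad
  have hci : ∀ w ∈ Ω, ci ρ w ∈ Z0 := by
    intro w hw
    rw [hZ0, Fintype.mem_piFinset]
    intro i
    rw [Finset.mem_Icc]
    refine ⟨Int.floor_nonneg.mpr (div_nonneg (hΩ w hw i).1 hρ0.le), Int.floor_le_floor ?_⟩
    exact div_le_div_of_nonneg_right (hΩ w hw i).2 hρ0.le
  -- double counting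
  have hdc : ∑ z ∈ Z0, (N z).card ≤ KK d * F.card := by
    have h1 : ∑ z ∈ Z0, (N z).card = ∑ f ∈ F, (Z0.filter (fun z => ∃ w ∈ Ω, ci ρ w = z ∧
        ‖x w - f.1‖ ≤ ρ ∧ ‖edir w - f.2‖ ≤ ρ)).card := by
      simp only [hN, Finset.card_filter]
      rw [Finset.sum_comm]
    rw [h1, mul_comm, ← smul_eq_mul]
    refine Finset.sum_le_card_nsmul _ _ _ fun f _ => ?_
    rcases (Z0.filter (fun z => ∃ w ∈ Ω, ci ρ w = z ∧
        ‖x w - f.1‖ ≤ ρ ∧ ‖edir w - f.2‖ ≤ ρ)).eq_empty_or_nonempty with h0 | ⟨z0, hz0⟩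
    · rw [h0]; simp
    · obtain ⟨-, w0, hw0, rfl, -, hb⟩ := Finset.mem_filter.mp hz0
      rw [← card_bx (ci ρ w0)]
      refine Finset.card_le_card fun z hz => ?_
      obtain ⟨-, w1, hw1, rfl, -, hb1⟩ := Finset.mem_filter.mp hz
      refine ci_near hρ0 (hΩ _ hw0) (hΩ _ hw1) ?_
      have : edir w0 - edir w1 = (edir w0 - f.2) - (edir w1 - f.2) := by abel
      rw [this]
      refine (norm_sub_le _ _).trans ?_
      linarith
  have hbad : (Bad.card : ℝ) * ρ ^ d ≤ KK d * C₀ * ρ ^ η := by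
    have h1 : (Bad.card : ℝ) * ρ ^ (-(2 * η)) ≤ KK d * (C₀ * ρ ^ (-((d : ℝ) + η))) := by
      calc (Bad.card : ℝ) * ρ ^ (-(2 * η)) = ∑ _z ∈ Bad, ρ ^ (-(2 * η)) := by
            rw [Finset.sum_const, nsmul_eq_mul]
        _ ≤ ∑ z ∈ Bad, ((N z).card : ℝ) :=
            Finset.sum_le_sum fun z hz => (Finset.mem_filter.mp hz).2.le
        _ ≤ ∑ z ∈ Z0, ((N z).card : ℝ) :=
            Finset.sum_le_sum_of_subset_of_nonneg (Finset.filter_subset _ _)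
              fun _ _ _ => Nat.cast_nonneg _
        _ = ((∑ z ∈ Z0, (N z).card : ℕ) : ℝ) := by push_cast; rfl
        _ ≤ ((KK d * F.card : ℕ) : ℝ) := by exact_mod_cast hdc
        _ = KK d * (F.card : ℝ) := by push_cast; rfl
        _ ≤ KK d * (C₀ * ρ ^ (-((d : ℝ) + η))) := by gcongr
    have e1 : ρ ^ (-(2 * η)) * ρ ^ (2 * η) = 1 := by
      rw [← Real.rpow_add hρ0]; simp
    have e2 : ρ ^ (-((d : ℝ) + η)) * ρ ^ (2 * η) * ρ ^ d = ρ ^ η := by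
      rw [← Real.rpow_natCast, ← Real.rpow_add hρ0, ← Real.rpow_add hρ0]
      congr 1; ring
    have h2 : 0 ≤ ρ ^ (2 * η) * ρ ^ d := by positivity
    have h3 := mul_le_mul_of_nonneg_right h1 h2
    calc (Bad.card : ℝ) * ρ ^ d
        = (Bad.card : ℝ) * (ρ ^ (-(2 * η)) * ρ ^ (2 * η)) * ρ ^ d := by rw [e1, mul_one]
      _ = (Bad.card : ℝ) * ρ ^ (-(2 * η)) * (ρ ^ (2 * η) * ρ ^ d) := by ring
      _ ≤ KK d * (C₀ * ρ ^ (-((d : ℝ) + η))) * (ρ ^ (2 * η) * ρ ^ d) := h3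
      _ = KK d * C₀ * (ρ ^ (-((d : ℝ) + η)) * ρ ^ (2 * η) * ρ ^ d) := by ring
      _ = KK d * C₀ * ρ ^ η := by rw [e2]
  refine ⟨⋃ z ∈ Bad, cu ρ z, ?_, ?_⟩
  · refine (measure_biUnion_finset_le _ _).trans ?_
    rw [Finset.sum_congr rfl (fun z _ => vol_cu hρ0 z), Finset.sum_const, nsmul_eq_mul,
      ← ENNReal.ofReal_natCast, ← ENNReal.ofReal_mul (Nat.cast_nonneg _)]
    exact ENNReal.ofReal_le_ofReal hbad
  · intro ι w hw δ hδ A hA y v hv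
    have hnb : ∀ i, ((N (ci ρ (w i))).card : ℝ) ≤ ρ ^ (-(2 * η)) := by
      intro i
      by_contra hcon
      push Not at hcon
      refine (hw i).2 ?_
      refine Set.mem_iUnion₂.mpr ⟨ci ρ (w i), Finset.mem_filter.mpr ⟨hci _ (hw i).1, hcon⟩, ?_⟩
      exact mem_cu hρ0 _
    by_cases hI : ∃ i, ‖edir (w i) - v‖ ≤ ρ
    · obtain ⟨i0, hi0⟩ := hI
      set S := ((bx (ci ρ (w i0))).filter (fun z => ((N z).card : ℝ) ≤ ρ ^ (-(2 * η)))).biUnion N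
        with hS
      have hScard : (S.card : ℝ) ≤ KK d * ρ ^ (-(2 * η)) := by
        calc (S.card : ℝ) ≤ ((∑ z ∈ (bx (ci ρ (w i0))).filter
              (fun z => ((N z).card : ℝ) ≤ ρ ^ (-(2 * η))), (N z).card : ℕ) : ℝ) := by
              exact_mod_cast Finset.card_biUnion_le
          _ = ∑ z ∈ (bx (ci ρ (w i0))).filter
              (fun z => ((N z).card : ℝ) ≤ ρ ^ (-(2 * η))), ((N z).card : ℝ) := by push_cast; rfl
          _ ≤ ∑ _z ∈ (bx (ci ρ (w i0))).filter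
              (fun z => ((N z).card : ℝ) ≤ ρ ^ (-(2 * η))), ρ ^ (-(2 * η)) :=
              Finset.sum_le_sum fun z hz => (Finset.mem_filter.mp hz).2
          _ ≤ ∑ _z ∈ bx (ci ρ (w i0)), ρ ^ (-(2 * η)) :=
              Finset.sum_le_sum_of_subset_of_nonneg (Finset.filter_subset _ _)
                fun _ _ _ => by positivity
          _ = KK d * ρ ^ (-(2 * η)) := by
              rw [Finset.sum_const, nsmul_eq_mul, card_bx]
      have hrep : ∀ f : E d × E d, ∃ w' : Fin d → ℝ,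
          (∃ w'' ∈ Ω, ‖x w'' - f.1‖ ≤ ρ ∧ ‖edir w'' - f.2‖ ≤ ρ) →
          w' ∈ Ω ∧ ‖x w' - f.1‖ ≤ ρ ∧ ‖edir w' - f.2‖ ≤ ρ := by
        intro f
        by_cases h : ∃ w'' ∈ Ω, ‖x w'' - f.1‖ ≤ ρ ∧ ‖edir w'' - f.2‖ ≤ ρ
        · obtain ⟨w'', h1⟩ := h
          exact ⟨w'', fun _ => h1⟩
        · exact ⟨0, fun h' => absurd h' h⟩
      choose rep hrep using hrep
      refine ⟨S.image (fun f => (x (rep f) + (1 / 2 : ℝ) • edir (rep f), edir (rep f))), ?_, ?_, ?_⟩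
      · refine Finset.card_image_le.trans ?_
        exact_mod_cast hScard.trans hA
      · intro f hf
        obtain ⟨g, -, rfl⟩ := Finset.mem_image.mp hf
        exact norm_edir _
      · intro i _ hiv
        obtain ⟨f, hfF, hf1, hf2⟩ := hcov _ (hx _ (hw i).1)
        have hfN : f ∈ N (ci ρ (w i)) :=
          Finset.mem_filter.mpr ⟨hfF, w i, (hw i).1, rfl, hf1, hf2⟩
        have hbx : ci ρ (w i) ∈ bx (ci ρ (w i0)) := by
          refine ci_near hρ0 (hΩ _ (hw i0).1) (hΩ _ (hw i).1) ?_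
          have : edir (w i0) - edir (w i) = (edir (w i0) - v) - (edir (w i) - v) := by abel
          rw [this]
          refine (norm_sub_le _ _).trans ?_
          linarith
        have hfS : f ∈ S := by
          rw [hS, Finset.mem_biUnion]
          exact ⟨ci ρ (w i), Finset.mem_filter.mpr ⟨hbx, hnb i⟩, hfN⟩
        refine ⟨_, Finset.mem_image_of_mem _ hfS, ?_⟩
        obtain ⟨-, hr1, hr2⟩ := hrep f ⟨w i, (hw i).1, hf1, hf2⟩
        refine tube_cyl (norm_edir _) ?_ ?_ hδ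
        · have : x (w i) - x (rep f) = (x (w i) - f.1) - (x (rep f) - f.1) := by abel
          rw [this]
          refine (norm_sub_le _ _).trans ?_
          simp only at hf1
          linarith
        · have : edir (w i) - edir (rep f) = (edir (w i) - f.2) - (edir (rep f) - f.2) := by abel
          rw [this]
          refine (norm_sub_le _ _).trans ?_
          simp only at hf2
          linarith
    · refine ⟨∅, by simp, by simp, fun i _ hi => absurd ⟨i, hi⟩ hI⟩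

end SA55

open SA55

theorem sa : SAStmt := by
  intro d M η C₀ hd hM hη hC₀
  classical
  obtain ⟨R, hR⟩ : ∃ R : ℝ, R = 2 * ((d : ℝ) + 1) ^ 2 := ⟨_, rfl⟩
  have hR0 : 0 < R := by rw [hR]; positivity
  obtain ⟨C₁, hC₁⟩ : ∃ C₁ : ℝ, C₁ = 1 + KK d + 2 * M * KK d * C₀ + 2 * 2 ^ d * R ^ d := ⟨_, rfl⟩
  have hK0 : (0 : ℝ) ≤ KK d := Nat.cast_nonneg _
  have hM0 : (0 : ℝ) ≤ M := Nat.cast_nonneg _
  have ha : 0 ≤ 2 * (M : ℝ) * KK d * C₀ := by positivity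
  have hb : 0 ≤ 2 * 2 ^ d * R ^ d := by positivity
  refine ⟨C₁, by linarith, ?_⟩
  intro δ α hδ0 hδ1 hα Λ hΛ Ω x hΩ hx hvol
  have hρ0 : ∀ r : ℕ, 0 < δ ^ ((r : ℝ) / M) := fun r => by positivity
  have hMpos : (0 : ℝ) < M := by exact_mod_cast hM
  have hρ1 : ∀ r : ℕ, 1 ≤ r → δ ^ ((r : ℝ) / M) < 1 := by
    intro r hr
    exact Real.rpow_lt_one hδ0.le hδ1 (by positivity)
  have hB : ∀ r : ℕ, ∃ B : Set (Fin d → ℝ), 1 ≤ r →
      volume B ≤ ENNReal.ofReal (KK d * C₀ * δ ^ (η / M)) ∧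
      ∀ (ι : Type) (w : ι → Fin d → ℝ), (∀ i, w i ∈ Ω ∧ w i ∉ B) →
        ∀ δ', δ' ≤ δ ^ ((r : ℝ) / M) → ∀ A : ℕ,
        KK d * (δ ^ ((r : ℝ) / M)) ^ (-(2 * η)) ≤ A →
        CovAt 10 δ' (δ ^ ((r : ℝ) / M)) A (fun i => x (w i) + (1 / 2 : ℝ) • edir (w i))
          (fun i => edir (w i)) := by
    intro r
    by_cases hr : 1 ≤ r
    · obtain ⟨B, hB1, hB2⟩ := scale (hρ0 r) (hρ1 r hr) Λ hΛ Ω x hΩ hx
      refine ⟨B, fun _ => ⟨hB1.trans (ENNReal.ofReal_le_ofReal ?_), hB2⟩⟩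
      have h1 : (δ ^ ((r : ℝ) / M)) ^ η ≤ δ ^ (η / M) := by
        rw [← Real.rpow_mul hδ0.le]
        refine Real.rpow_le_rpow_of_exponent_ge hδ0 hδ1.le ?_
        have hr1 : (1 : ℝ) ≤ r := by exact_mod_cast hr
        rw [div_mul_eq_mul_div]
        refine div_le_div_of_nonneg_right ?_ hM0
        nlinarith
      gcongr
    · exact ⟨∅, fun h => absurd h hr⟩
  choose B hB using hB
  set Bt : Set (Fin d → ℝ) := ⋃ r ∈ Finset.Ico 1 M, B r with hBt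
  have hBv : volume Bt ≤ ENNReal.ofReal (α / 2) := by
    refine (measure_biUnion_finset_le _ _).trans ?_
    refine (Finset.sum_le_card_nsmul _ _ (ENNReal.ofReal (KK d * C₀ * δ ^ (η / M)))
      fun r hr => (hB r (Finset.mem_Ico.mp hr).1).1).trans ?_
    rw [Nat.card_Ico, nsmul_eq_mul, ← ENNReal.ofReal_natCast,
      ← ENNReal.ofReal_mul (Nat.cast_nonneg _)]
    refine ENNReal.ofReal_le_ofReal ?_
    have h1 : ((M - 1 : ℕ) : ℝ) ≤ M := by exact_mod_cast Nat.sub_le _ _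
    have h2 : 0 ≤ δ ^ (η / M) := by positivity
    have h3 : 2 * M * KK d * C₀ * δ ^ (η / M) ≤ C₁ * δ ^ (η / M) := by
      refine mul_le_mul_of_nonneg_right ?_ h2
      linarith
    have h4 : ((M - 1 : ℕ) : ℝ) * (KK d * C₀ * δ ^ (η / M)) ≤ M * (KK d * C₀ * δ ^ (η / M)) :=
      mul_le_mul_of_nonneg_right h1 (by positivity)
    have h5 : M * (KK d * C₀ * δ ^ (η / M)) = (2 * M * KK d * C₀ * δ ^ (η / M)) / 2 := by ring
    linarith
  have hα0 : 0 < α := lt_of_lt_of_le (by rw [hC₁]; positivity) hα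
  have hgood : ENNReal.ofReal (α / 2) ≤ volume (Ω \ Bt) := by
    have h1 : volume Ω ≤ volume (Ω \ Bt) + volume Bt := by
      refine (measure_mono ?_).trans (measure_union_le _ _)
      intro z hz
      by_cases h : z ∈ Bt
      · exact Or.inr h
      · exact Or.inl ⟨hz, h⟩
    have h2 : ENNReal.ofReal (α / 2) + ENNReal.ofReal (α / 2) ≤
        volume (Ω \ Bt) + ENNReal.ofReal (α / 2) := by
      rw [← ENNReal.ofReal_add (by positivity) (by positivity), add_halves]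
      exact hvol.trans (h1.trans (add_le_add le_rfl hBv))
    exact (ENNReal.add_le_add_iff_right ENNReal.ofReal_ne_top).mp h2
  obtain ⟨Z, w, hw1, hw2, hw3⟩ := select (Ω \ Bt) (fun w hw => hΩ w hw.1)
    (r := R * δ) (by positivity) hgood
  refine ⟨Z.card, fun i => w (Z.equivFin.symm i : Z), fun i => (hw1 _ (Z.equivFin.symm i).2).1,
    ?_, ?_, ?_⟩
  · intro i j hij
    have hne : ((Z.equivFin.symm i : Z) : Fin d → ℤ) ≠ (Z.equivFin.symm j : Z) := by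
      intro h
      exact hij (Z.equivFin.symm.injective (Subtype.ext h))
    obtain ⟨k, hk⟩ := hw2 _ (Z.equivFin.symm i).2 _ (Z.equivFin.symm j).2 hne
    have h1 := edir_sep _ _ (hΩ _ (hw1 _ (Z.equivFin.symm i).2).1)
      (hΩ _ (hw1 _ (Z.equivFin.symm j).2).1) k
    rw [← hR] at h1
    have h2 := hk.trans h1
    exact le_of_mul_le_mul_left h2 hR0
  · have h1 : α ≤ 2 * 2 ^ d * R ^ d * (δ ^ d * Z.card) := by
      rw [mul_pow] at hw3
      linarith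
    have h2 : 2 * 2 ^ d * R ^ d * (δ ^ d * Z.card) ≤ C₁ * (δ ^ d * Z.card) := by
      refine mul_le_mul_of_nonneg_right ?_ (by positivity)
      linarith
    linarith
  · intro r hr1 hrM
    have hC₁0 : 0 < C₁ := by linarith
    constructor
    · rw [Nat.one_le_iff_ne_zero, ← Nat.pos_iff_ne_zero]
      exact Nat.ceil_pos.mpr (mul_pos hC₁0 (by positivity))
    · refine (hB r hr1).2 (Fin Z.card) _ ?_ δ ?_ _ ?_
      · intro i
        have h1 := hw1 _ (Z.equivFin.symm i).2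
        refine ⟨h1.1, fun h => h1.2 ?_⟩
        exact Set.mem_iUnion₂.mpr ⟨r, Finset.mem_Ico.mpr ⟨hr1, hrM⟩, h⟩
      · have h1 : δ ^ (1 : ℝ) ≤ δ ^ ((r : ℝ) / M) := by
          refine Real.rpow_le_rpow_of_exponent_ge hδ0 hδ1.le ?_
          rw [div_le_one hMpos]
          exact_mod_cast hrM.le
        rwa [Real.rpow_one] at h1
      · refine le_trans ?_ (Nat.le_ceil _)
        have h1 : (δ ^ ((r : ℝ) / M)) ^ (-(2 * η)) ≤ (δ ^ ((r : ℝ) / M)) ^ (-(3 * η)) := by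
          refine Real.rpow_le_rpow_of_exponent_ge (hρ0 r) (hρ1 r hr1).le ?_
          linarith
        have h2 : (KK d : ℝ) ≤ C₁ := by linarith
        exact mul_le_mul h2 h1 (by positivity) hC₁0.le

end Pool.STE
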